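import Pool.Agent.Q117.CR.Main

/-!
# Chen's theorem in every admissible consecutive pattern

For every `k` there are `t ≥ 1` and `c > 0` such that for all large real `X` and EVERY admissible set `H` of `k` natural
numbers `≤ c R(X)` (`R` is Rankin's function) and every two different `a, b ∈ H` there are at least `X ^ 0.99` natural numbers
`n` with: `n + a ∈ (X, 3 X]` is PRIME, `n + b` is a product of at most TWO primes, all `> X ^ (1/8)`, every other `n + h`,
`h ∈ H`, is a product of at most `t` primes, all `> X ^ (1/t)`, and EVERY other integer `n + s`, `0 ≤ s ≤ c R(X)`, is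
composite, with a prime factor `≤ log X`.
-/

set_option autoImplicit false

namespace Pool.Agent.Results.MP_3ec731_nt.ChenConsecutivePatterns

/-- `H` misses a residue class modulo every prime -/
def Admissible (H : Finset ℕ) : Prop := ∀ p : ℕ, p.Prime → ∃ r : ℕ, ∀ h ∈ H, ¬ h ≡ r [MOD p]

/-- Rankin's function `log X · log log X · log log log log X / (log log log X) ^ 2` -/
noncomputable def Rankin (X : ℝ) : ℝ :=
  Real.log X * Real.log (Real.log X) * Real.log (Real.log (Real.log (Real.log X))) /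
    (Real.log (Real.log (Real.log X))) ^ 2

/-- `n` realises the pattern `H` with a prime at the place `a`, a product of at most two primes at the place `b`, products of at most
`t` large primes at the other places, and only composite numbers with a prime factor `≤ log X` at all other places `s ≤ D` -/
structure Realises (t : ℕ) (X D : ℝ) (H : Finset ℕ) (a b n : ℕ) : Prop where
  /-- the size of `n` -/
  size : X / 2 ≤ (n : ℝ) ∧ X < ((n + a : ℕ) : ℝ) ∧ ((n + a : ℕ) : ℝ) ≤ 3 * X
  /-- the place `a` -/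
  prime : (n + a).Prime
  /-- the place `b` (`Nat.primeFactorsList` lists the prime factors with multiplicity) -/
  almost : (n + b).primeFactorsList.length ≤ 2 ∧ ∀ p : ℕ, p.Prime → p ∣ n + b → X ^ (1 / 8 : ℝ) < p
  /-- all places of `H` -/
  places : ∀ h ∈ H, (n + h).primeFactorsList.length ≤ t ∧ ∀ p : ℕ, p.Prime → p ∣ n + h → X ^ (1 / (t : ℝ)) < p
  /-- all other places -/
  others : ∀ s : ℕ, (s : ℝ) ≤ D → s ∉ H → ¬ (n + s).Prime ∧ ∃ p : ℕ, p.Prime ∧ (p : ℝ) ≤ Real.log X ∧ p ∣ n + s

theorem adm {H : Finset ℕ} (h : Admissible H) : Pool.Agent.Q117.GP.Adm H := by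
  intro p hp
  obtain ⟨r, hr⟩ := h p hp
  refine ⟨(p - 1) * r, fun x hx hd => hr x hx ?_⟩
  have h1 : ((p - 1) * r + x) + r = p * r + x := by
    obtain ⟨q, rfl⟩ : ∃ q, p = q + 1 := ⟨p - 1, by have := hp.pos; omega⟩
    simp only [Nat.add_sub_cancel]; ring
  have h2 : x + p * r ≡ r [MOD p] := by
    have h3 : (p - 1) * r + x + r ≡ 0 + r [MOD p] := Nat.ModEq.add_right r ((Nat.modEq_zero_iff_dvd).2 hd)
    rw [h1, zero_add, Nat.add_comm] at h3
    exact h3
  have h4 : x + p * r ≡ x [MOD p] := by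
    rw [Nat.ModEq, Nat.add_mul_mod_self_left]
  exact h4.symm.trans h2

theorem result (k : ℕ) (hk : 1 ≤ k) : ∃ t : ℕ, 1 ≤ t ∧ ∃ c : ℝ, 0 < c ∧ ∃ X₀ : ℝ, ∀ X : ℝ, X₀ ≤ X →
    ∀ H : Finset ℕ, H.card = k → (∀ h ∈ H, (h : ℝ) ≤ c * Rankin X) → Admissible H →
    ∀ a ∈ H, ∀ b ∈ H, a ≠ b →
      X ^ (99 / 100 : ℝ) ≤ (({n : ℕ | Realises t X (c * Rankin X) H a b n}).ncard : ℝ) := by
  classical
  obtain ⟨t, ht, c, hc, X1, hX1⟩ := Pool.Agent.Q117.CR.pattern k hk
  obtain ⟨X2, hX2⟩ := Pool.Agent.Q117.GP.window_le (2 * c) (by positivity)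
  have ht0 : (0 : ℝ) < t := by exact_mod_cast ht
  obtain ⟨X3, hX3⟩ := Filter.eventually_atTop.1 (((tendsto_rpow_atTop (show (0 : ℝ) < 1 / t by positivity)).eventually
    (Filter.eventually_ge_atTop (5 : ℝ))).and ((Real.isLittleO_log_id_atTop.bound (show (0 : ℝ) < 1 / 4 by norm_num)).and
      (Filter.eventually_ge_atTop (100 : ℝ))))
  refine ⟨t, ht, c, hc, max (max X1 X2) X3, fun X hX H hHc hHle hadm a ha b hb hab => ?_⟩
  simp only [max_le_iff] at hX
  obtain ⟨⟨g1, g2⟩, g3⟩ := hX
  obtain ⟨f1, f2, f3⟩ := hX3 X g3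
  have hX0 : 0 < X := by linarith
  have hw : c * Rankin X ≤ X / 2 := by
    have := hX2 X g2
    change 2 * c * Rankin X ≤ X at this
    linarith
  have hlog : Real.log X ≤ X / 4 := by
    have h1 : 0 ≤ Real.log X := Real.log_nonneg (by linarith)
    simp only [id, Real.norm_eq_abs, abs_of_nonneg h1, abs_of_pos hX0] at f2
    linarith
  refine (hX1 X g1 H hHc hHle (adm hadm) a ha b hb hab).trans ?_
  rw [← Set.ncard_coe_finset]
  have hfin : ({n : ℕ | Realises t X (c * Rankin X) H a b n}).Finite := by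
    refine (Set.finite_Iic ⌊3 * X⌋₊).subset fun n hn => ?_
    have h1 := hn.size.2.2
    rw [Set.mem_Iic]
    apply Nat.le_floor
    refine le_trans ?_ h1
    exact_mod_cast Nat.le_add_right n a
  have hsub : ((Pool.Agent.Q117.CR.PtsC t X (c * Pool.Agent.Q117.GP.Rk X) H a b : Finset ℕ) : Set ℕ) ⊆
      {n : ℕ | Realises t X (c * Rankin X) H a b n} := by
    intro n hn
    simp only [Pool.Agent.Q117.CR.PtsC, Finset.coe_filter, Finset.mem_range, Set.mem_ofPred_eq] at hn
    obtain ⟨-, h1, h2, h3, h4, h5, h6, h7⟩ := hn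
    have hale := (hHle a ha).trans hw
    have hn2 : X / 2 ≤ (n : ℝ) := by push_cast at h1; linarith
    refine ⟨⟨hn2, h1, h2⟩, h3, ⟨h4, h5⟩, fun h hh => ?_, fun s hs hsH => ?_⟩
    · have hbig : ∀ p : ℕ, p.Prime → p ∣ n + h → X ^ (1 / (t : ℝ)) < p := by
        intro p hp hd
        by_contra hcon
        exact h6 h hh p hp (not_lt.1 hcon) hd
      refine ⟨?_, hbig⟩
      by_contra hlen
      rw [not_le] at hlen
      have hnh : (((n + h : ℕ)) : ℝ) ≤ 4 * X := by
        have := (hHle h hh).trans hw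
        push_cast at h2 ⊢
        have ha0 : (0 : ℝ) ≤ a := Nat.cast_nonneg a
        linarith
      have hne : n + h ≠ 0 := by
        have : (0 : ℝ) < n := by linarith
        have : 0 < n := by exact_mod_cast this
        omega
      have hprod : ∀ l : List ℕ, (∀ p ∈ l, X ^ (1 / (t : ℝ)) ≤ (p : ℝ)) →
          (X ^ (1 / (t : ℝ))) ^ l.length ≤ ((l.prod : ℕ) : ℝ) := by
        intro l
        induction l with
        | nil => intro _; simp
        | cons x l ih =>
          intro hx
          rw [List.length_cons, pow_succ, List.prod_cons, Nat.cast_mul, mul_comm]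
          refine mul_le_mul (hx x (by simp)) (ih fun p hp => hx p (by simp [hp])) (by positivity) (Nat.cast_nonneg _)
      have h8 := hprod (n + h).primeFactorsList fun p hp =>
        (hbig p (Nat.prime_of_mem_primeFactorsList hp) (Nat.dvd_of_mem_primeFactorsList hp)).le
      rw [Nat.prod_primeFactorsList hne] at h8
      have h9 : (X ^ (1 / (t : ℝ))) ^ (t + 1) ≤ (X ^ (1 / (t : ℝ))) ^ (n + h).primeFactorsList.length :=
        pow_le_pow_right₀ (by linarith) hlen
      have h10 : (X ^ (1 / (t : ℝ))) ^ t = X := by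
        rw [← Real.rpow_natCast, ← Real.rpow_mul hX0.le, one_div, inv_mul_cancel₀ ht0.ne', Real.rpow_one]
      rw [pow_succ, h10] at h9
      have h11 : 5 * X ≤ X * X ^ (1 / (t : ℝ)) := by nlinarith
      linarith
    · obtain ⟨p, hp, hpl, hpd⟩ := h7 s hs hsH
      refine ⟨fun hpr => ?_, p, hp, hpl, hpd⟩
      rcases (Nat.dvd_prime hpr).1 hpd with h | h
      · exact hp.one_lt.ne' h
      · rw [h] at hpl
        push_cast at hpl
        have : (0 : ℝ) ≤ s := Nat.cast_nonneg s
        linarith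
  exact_mod_cast Set.ncard_le_ncard hsub hfin

end Pool.Agent.Results.MP_3ec731_nt.ChenConsecutivePatterns
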