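import Pool.Agent.Q162.MP.Iso
import Pool.Agent.Q253.Cov.APd
import Pool.Agent.Q117.GP.Apply

/-!
# Every admissible consecutive pattern in the conjectured order of magnitude: a prime, a product of two primes, almost primes

Let `k ≥ 2`. There are `t ≥ 1` and `ε, c, C > 0` such that for all large `X` the following holds. Let `F` be ANY family of admissible sets
`H` of `k` integers `0 ≤ h ≤ ε log X`, with two different places `a(H), b(H)` of each of them. The number of the `n` in an interval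
`(A, B] ⊆ [0, X]` of length `≥ θ X` for which, for some `H` in `F`, the integer `n + a(H)` is PRIME, `n + b(H)` has at most TWO prime
factors, all `> X ^ (1/9)`, all `n + h`, `h ∈ H`, have at most `t` prime factors, all `> X ^ (1/t)`, and EVERY other integer at a distance
at most `ε log X` from `n` has a prime factor `≤ X ^ (1/t)`, is between `c 𝔖(F) (B - A) / log ^ k X` and `C 𝔖(F) (B - A) / log ^ k X`,
`𝔖(F)` being the sum of the singular series of the members of `F`. (`F = {H}`: the order conjectured by Hardy and Littlewood, for every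
single pattern. All patterns: their distribution is comparable with the Hardy-Littlewood law.) Every subset of positive relative density
contains `L`-term progressions of `n` which realise one and the same member of `F`, with a step `≤ log ^ E X`.

Libraries: `Pool.Agent.Q162.MP` (author's, on the starting modules `Y840.CT.genF`, `Q253.Thin.int_upper`, `H646.Moment`, `Y822.CT_tail`,
`Y822.CT_up`, `Y843.HG.V1_bounds`), `Pool.Agent.Q253.Cov.ap_dense`.
-/

set_option autoImplicit false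

namespace Pool.Agent.Results.MP_3ec731_nt.EveryPatternExpectedOrder

open Finset Filter
open Pool.Agent.Q253.Thin (SysZ IS VZ_low)
open Pool.Agent.Y843.HS (Pr VV Pr_mem Pr_prime)
open Pool.Agent.Q162.MP (W Zc sysZ VV_Zc tuples iso isolated fac_nonneg mem_Zc)
open Pool.Agent.Q117.GP (rough_omega)

/-- the number of residue classes modulo `p` occupied by `H` -/
def nu (H : Finset ℕ) (p : ℕ) : ℕ := (H.image (· % p)).card

/-- `H` misses a residue class modulo every prime -/
def Admissible (H : Finset ℕ) : Prop := ∀ p : ℕ, p.Prime → nu H p < p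

/-- the factor at `p` of the singular series -/
noncomputable def loc (H : Finset ℕ) (p : ℕ) : ℝ :=
  (1 - (nu H p : ℝ) / p) / (1 - 1 / (p : ℝ)) ^ H.card

/-- the singular series of `H` -/
noncomputable def sing (H : Finset ℕ) : ℝ := ∏' p : Nat.Primes, loc H p

/-- at most `t` prime factors (with multiplicity), all greater than `X ^ (1/t)` -/
def AlmostPrime (t : ℕ) (X : ℝ) (m : ℕ) : Prop :=
  0 < m ∧ m.primeFactorsList.length ≤ t ∧ ∀ q : ℕ, q.Prime → q ∣ m → X ^ (1 / (t : ℝ)) < q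

open Classical in
/-- the `n ∈ (A, B]` which realise `H` on the scale `ε log X`: `n + a` is a prime, `n + b` has at most two prime factors, all
`> X ^ (1/9)`, all `n + h`, `h ∈ H`, are almost primes, and every other integer at a distance at most `ε log X` from `n` has a prime factor
`≤ X ^ (1/t)` -/
noncomputable def realised (t : ℕ) (ε : ℝ) (X A B : ℕ) (H : Finset ℕ) (a b : ℕ) : Finset ℕ :=
  (Ioc A B).filter (fun n => (n + a).Prime ∧
    ((n + b).primeFactorsList.length ≤ 2 ∧ ∀ q : ℕ, q.Prime → q ∣ n + b → (X : ℝ) ^ (1 / 9 : ℝ) < q) ∧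
    (∀ h ∈ H, AlmostPrime t X (n + h)) ∧
    ∀ m : ℕ, |(m : ℝ) - n| ≤ ε * Real.log X → (∀ h ∈ H, m ≠ n + h) →
      ∃ q : ℕ, q.Prime ∧ (q : ℝ) ≤ (X : ℝ) ^ (1 / (t : ℝ)) ∧ q ∣ m)

/-- `F` is a family of admissible patterns of `k` elements in `[0, ε log X]`, and `a H ≠ b H` are two places of `H` for each `H ∈ F` -/
structure Family (k : ℕ) (ε : ℝ) (X : ℕ) (F : Finset (Finset ℕ)) (a b : Finset ℕ → ℕ) : Prop where
  /-- the number of elements -/
  size : ∀ H ∈ F, H.card = k
  /-- the scale -/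
  scale : ∀ H ∈ F, ∀ h ∈ H, (h : ℝ) ≤ ε * Real.log X
  /-- the patterns are admissible -/
  adm : ∀ H ∈ F, Admissible H
  /-- the places -/
  places : ∀ H ∈ F, a H ∈ H ∧ b H ∈ H ∧ a H ≠ b H

open Classical in
/-- the `n ∈ (A, B]` which realise a member of `F` -/
noncomputable def realisedIn (t : ℕ) (ε : ℝ) (X A B : ℕ) (F : Finset (Finset ℕ)) (a b : Finset ℕ → ℕ) : Finset ℕ :=
  (Ioc A B).filter (fun n => ∃ H ∈ F, n ∈ realised t ε X A B H (a H) (b H))

/-! ## bridges -/

lemma sing_eq (H : Finset ℕ) : sing H = Pool.Agent.Q162.MP.sing H := rfl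

lemma W_anti {H : Finset ℕ} (hadm : ∀ p : ℕ, p.Prime → Pool.Agent.Q162.MP.nu H p < p) {y z : ℕ} (hyz : y ≤ z) : W H z ≤ W H y := by
  unfold W
  have hsub : Pr 0 y ⊆ Pr 0 z := by
    intro p hp
    rw [Pr_mem] at hp ⊢
    exact ⟨⟨hp.1.1, hp.1.2.trans hyz⟩, hp.2⟩
  rw [← prod_sdiff hsub]
  apply mul_le_of_le_one_left
  · exact prod_nonneg (fun p hp => fac_nonneg hadm (Pr_prime hp))
  · apply prod_le_one
    · intro p hp
      exact fac_nonneg hadm (Pr_prime (mem_sdiff.1 hp).1)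
    · intro p _
      have : 0 ≤ (Pool.Agent.Q162.MP.nu H p : ℝ) / p := by positivity
      linarith

/-- a point realises at most one pattern -/
lemma unique {t : ℕ} {ε : ℝ} {X A B : ℕ} {H K : Finset ℕ} {a b a' b' : ℕ} (hc : H.card = K.card)
    (hH : ∀ h ∈ H, (h : ℝ) ≤ ε * Real.log X) {n : ℕ} (hn : n ∈ realised t ε X A B H a b) (hn' : n ∈ realised t ε X A B K a' b') :
    H = K := by
  classical
  apply eq_of_subset_of_card_le _ hc.symm.le
  intro h hh
  by_contra hcon
  unfold realised at hn hn'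
  rw [mem_filter] at hn hn'
  obtain ⟨-, -, -, h1, -⟩ := hn
  obtain ⟨-, -, -, -, h2⟩ := hn'
  obtain ⟨q, hq, hqX, hqd⟩ := h2 (n + h) (by
    push_cast
    rw [add_sub_cancel_left, abs_of_nonneg (Nat.cast_nonneg h)]
    exact hH h hh) (by
    intro g hg he
    have : h = g := by omega
    exact hcon (this ▸ hg))
  exact absurd hqX (not_le.2 ((h1 h hh).2.2 q hq hqd))

/-- the points which realise `H` are the isolated patterns of the library -/
lemma realised_eq {t : ℕ} {ε : ℝ} {X A B : ℕ} {H : Finset ℕ} {a b : ℕ} (hε : 0 < ε) (hX : 1 ≤ X) (hBX : B ≤ X) (hlog : ε * Real.log X ≤ X)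
    (hH : ∀ h ∈ H, (h : ℝ) ≤ ε * Real.log X)
    (hom : ∀ m : ℕ, 1 ≤ m → (m : ℝ) ≤ 4 * X → (∀ p : ℕ, p.Prime → (p : ℝ) ≤ (X : ℝ) ^ (1 / (t : ℝ)) → ¬ p ∣ m) →
      m.primeFactorsList.length ≤ t) :
    realised t ε X A B H a b = iso t X A B ⌊ε * Real.log X⌋₊ H a b := by
  classical
  have hX1 : (1 : ℝ) ≤ X := by exact_mod_cast hX
  have hlX : 0 ≤ Real.log X := Real.log_nonneg hX1
  have hfl : ∀ m n : ℕ, |(m : ℤ) - n| ≤ (⌊ε * Real.log X⌋₊ : ℕ) ↔ |(m : ℝ) - n| ≤ ε * Real.log X := by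
    intro m n
    have e1 : |(m : ℝ) - n| = ((|(m : ℤ) - n|.toNat : ℕ) : ℝ) := by
      have e2 : ((|(m : ℤ) - n|.toNat : ℕ) : ℤ) = |(m : ℤ) - n| := Int.toNat_of_nonneg (abs_nonneg _)
      have e3 : ((|(m : ℤ) - n|.toNat : ℕ) : ℝ) = (((|(m : ℤ) - n|.toNat : ℕ) : ℤ) : ℝ) := (Int.cast_natCast _).symm
      rw [e3, e2, Int.cast_abs, Int.cast_sub, Int.cast_natCast, Int.cast_natCast]
    rw [e1, ← Nat.le_floor_iff (by positivity)]
    omega
  ext n
  unfold realised iso tuples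
  rw [mem_filter, mem_filter, mem_filter]
  constructor
  · rintro ⟨h1, h2, h3, h4, h5⟩
    refine ⟨⟨h1, h2, h3, ?_⟩, ?_⟩
    · intro h hh q hq hqX hqd
      exact absurd hqX (not_le.2 ((h4 h hh).2.2 q hq hqd))
    · intro m hm hne
      exact h5 m ((hfl m n).1 hm) hne
  · rintro ⟨⟨h1, h2, h3, h4⟩, h5⟩
    refine ⟨h1, h2, h3, ?_, ?_⟩
    · intro h hh
      rw [mem_Ioc] at h1
      refine ⟨by omega, ?_, ?_⟩
      · apply hom _ (by omega) _ (h4 _ hh)
        have e1 : (n : ℝ) ≤ X := by exact_mod_cast h1.2.trans hBX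
        have e2 := hH h hh
        push_cast
        linarith
      · intro q hq hqd
        by_contra hcon
        exact h4 _ hh q hq (not_lt.1 hcon) hqd
    · intro m hm hne
      exact h5 m ((hfl m n).2 hm) hne

/-- both bounds in terms of the products -/
lemma core (k : ℕ) (hk : 2 ≤ k) : ∃ t : ℕ, 1 ≤ t ∧ ∃ ε c C : ℝ, 0 < ε ∧ 0 < c ∧ 0 < C ∧
    ∀ θ : ℝ, 0 < θ → ∃ X₀ : ℕ, ∀ X : ℕ, X₀ ≤ X → 2 ≤ X ∧ ε * Real.log X ≤ X ∧
      ∀ H : Finset ℕ, H.card = k → (∀ h ∈ H, (h : ℝ) ≤ ε * Real.log X) → Admissible H → ∀ a ∈ H, ∀ b ∈ H, a ≠ b →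
      ∀ A B : ℕ, B ≤ X → θ * X ≤ (B : ℝ) - A →
          c * (((B : ℝ) - A) * W H X) ≤ ((realised t ε X A B H a b).card : ℝ) ∧
          ((realised t ε X A B H a b).card : ℝ) ≤ C * (((B : ℝ) - A) * W H X) := by
  classical
  obtain ⟨t, ht, ε, c, C, hε, hc, hC, hiso⟩ := isolated k hk
  obtain ⟨X2, h2⟩ := rough_omega t ht
  obtain ⟨X4, h4⟩ := eventually_atTop.1 (tendsto_natCast_atTop_atTop.eventually (Real.isLittleO_log_id_atTop.bound (show (0 : ℝ) < 1 / ε by positivity)))
  refine ⟨t, ht, ε, c, C, hε, hc, hC, ?_⟩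
  intro θ hθ
  obtain ⟨X1, h1⟩ := hiso θ hθ
  refine ⟨max (max X1 ⌈X2⌉₊) (max X4 2), ?_⟩
  intro X hX
  have g1 : X1 ≤ X := ((le_max_left _ _).trans (le_max_left _ _)).trans hX
  have g2 : ⌈X2⌉₊ ≤ X := ((le_max_right _ _).trans (le_max_left _ _)).trans hX
  have g4 : X4 ≤ X := ((le_max_left _ _).trans (le_max_right _ _)).trans hX
  have g5 : 2 ≤ X := ((le_max_right _ _).trans (le_max_right _ _)).trans hX
  have hX2 : (2 : ℝ) ≤ X := by exact_mod_cast g5
  have hlX : 0 < Real.log X := Real.log_pos (by linarith)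
  have hlog : ε * Real.log X ≤ X := by
    have h5 : ‖Real.log (X : ℝ)‖ ≤ 1 / ε * ‖(id (X : ℝ) : ℝ)‖ := h4 X g4
    rw [Real.norm_of_nonneg hlX.le, id, Real.norm_of_nonneg (by linarith)] at h5
    calc ε * Real.log X ≤ ε * (1 / ε * X) := mul_le_mul_of_nonneg_left h5 hε.le
      _ = X := by field_simp
  refine ⟨g5, hlog, ?_⟩
  intro H hH hle hadm a ha b hb hab A B hBX hAB
  have e1 := realised_eq (t := t) (A := A) (B := B) (a := a) (b := b) hε (by omega) hBX hlog hle (h2 X (Nat.ceil_le.1 g2))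
  have hD : ((⌊ε * Real.log X⌋₊ : ℕ) : ℝ) ≤ ε * Real.log X := Nat.floor_le (by positivity)
  obtain ⟨l1, l2⟩ := h1 X g1 ⌊ε * Real.log X⌋₊ hD H hH (fun h hh => Nat.le_floor (hle h hh)) hadm a ha b hb hab A B hBX hAB
  rw [e1]
  refine ⟨l1, le_trans ?_ l2⟩
  have : (iso t X A B ⌊ε * Real.log X⌋₊ H a b) ⊆ tuples t X A B H a b := by
    unfold iso
    exact filter_subset _ _
  exact_mod_cast card_le_card this

lemma realisedIn_eq {t : ℕ} {ε : ℝ} {X A B : ℕ} {F : Finset (Finset ℕ)} {a b : Finset ℕ → ℕ} :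
    realisedIn t ε X A B F a b = F.biUnion (fun H => realised t ε X A B H (a H) (b H)) := by
  classical
  ext n
  unfold realisedIn
  rw [mem_filter, mem_biUnion]
  constructor
  · rintro ⟨_, H, hH, hn⟩
    exact ⟨H, hH, hn⟩
  · rintro ⟨H, hH, hn⟩
    refine ⟨?_, H, hH, hn⟩
    unfold realised at hn
    exact (mem_filter.1 hn).1

lemma pairwise {k t : ℕ} {ε : ℝ} {X A B : ℕ} {F : Finset (Finset ℕ)} {a b : Finset ℕ → ℕ} (hF : Family k ε X F a b) :
    Set.PairwiseDisjoint ((F : Finset (Finset ℕ)) : Set (Finset ℕ)) (fun H => realised t ε X A B H (a H) (b H)) := by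
  classical
  intro H hH K hK hne
  rw [Function.onFun, disjoint_left]
  intro n hn hn'
  exact hne (unique ((hF.size H hH).trans (hF.size K hK).symm) (hF.scale H hH) hn hn')

lemma card_eq {k t : ℕ} {ε : ℝ} {X A B : ℕ} {F : Finset (Finset ℕ)} {a b : Finset ℕ → ℕ} (hF : Family k ε X F a b) :
    ((realisedIn t ε X A B F a b).card : ℝ) = ∑ H ∈ F, ((realised t ε X A B H (a H) (b H)).card : ℝ) := by
  classical
  rw [realisedIn_eq, card_biUnion (fun H hH K hK hne => pairwise hF hH hK hne), Nat.cast_sum]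

/-- **Every admissible consecutive pattern, in the expected order of magnitude.** -/
theorem result (k : ℕ) (hk : 2 ≤ k) :
    (∀ H : Finset ℕ, HasProd (fun p : Nat.Primes => loc H p) (sing H) ∧ (Admissible H → 0 < sing H)) ∧
    ∃ t : ℕ, 1 ≤ t ∧ ∃ ε c C : ℝ, 0 < ε ∧ 0 < c ∧ 0 < C ∧
      (∀ θ : ℝ, 0 < θ → ∃ X₀ : ℕ, ∀ X : ℕ, X₀ ≤ X → ∀ (F : Finset (Finset ℕ)) (a b : Finset ℕ → ℕ), Family k ε X F a b →
        ∀ A B : ℕ, B ≤ X → θ * X ≤ (B : ℝ) - A →
          c * ((∑ H ∈ F, sing H) * (((B : ℝ) - A) / Real.log X ^ k)) ≤ ((realisedIn t ε X A B F a b).card : ℝ) ∧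
          ((realisedIn t ε X A B F a b).card : ℝ) ≤ C * ((∑ H ∈ F, sing H) * (((B : ℝ) - A) / Real.log X ^ k))) ∧
      (∀ (L : ℕ) (η : ℝ), 0 < η → ∃ E X₀ : ℕ, ∀ X : ℕ, X₀ ≤ X → ∀ (F : Finset (Finset ℕ)) (a b : Finset ℕ → ℕ), Family k ε X F a b →
        F.Nonempty → ∀ S ⊆ realisedIn t ε X 0 X F a b, η * ((realisedIn t ε X 0 X F a b).card : ℝ) ≤ S.card →
          ∃ H ∈ F, ∃ x r : ℕ, 1 ≤ r ∧ (r : ℝ) ≤ Real.log X ^ E ∧
            ∀ i < L, x + i * r ∈ S ∧ x + i * r ∈ realised t ε X 0 X H (a H) (b H)) := by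
  classical
  refine ⟨?_, ?_⟩
  · intro H
    refine ⟨Pool.Agent.H387R2.Uni.CT_hasProd H, fun hall => ?_⟩
    rw [sing_eq, Pool.Agent.Q162.MP.sing_eq, ← Pool.Agent.H387R2.Uni.CT_en]
    apply Pool.Agent.H386R2.HL.singularSeries_pos (Pool.Agent.H387R2.Uni.en_inj _)
    intro p hp
    rw [Pool.Agent.H387R2.Uni.nu_en]
    exact hall p hp
  obtain ⟨t, ht, ε, c0, C0, hε, hc0, hC0, hcore⟩ := core k hk
  obtain ⟨c1, C1, hc1, hC1, X1, hcmp⟩ := Pool.Agent.Q162.MP.compare k
  have ht0 : (0 : ℝ) < t := by exact_mod_cast ht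
  have ht1 : (1 : ℝ) ≤ t := by exact_mod_cast ht
  refine ⟨t, ht, ε, c0 * c1, C0 * C1, hε, by positivity, by positivity, ?_, ?_⟩
  · intro θ hθ
    obtain ⟨X3, h3⟩ := hcore θ hθ
    refine ⟨max X1 X3, ?_⟩
    intro X hX F a b hF A B hBX hAB
    have g1 : X1 ≤ X := (le_max_left _ _).trans hX
    have g3 : X3 ≤ X := (le_max_right _ _).trans hX
    obtain ⟨hX2, hlog, h5⟩ := h3 X g3
    have hXr : (2 : ℝ) ≤ X := by exact_mod_cast hX2
    have hlX : 0 < Real.log X := Real.log_pos (by linarith)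
    have hlen : (0 : ℝ) < (B : ℝ) - A := lt_of_lt_of_le (by positivity) hAB
    have key : ∀ H ∈ F, c0 * c1 * (sing H * (((B : ℝ) - A) / Real.log X ^ k)) ≤ ((realised t ε X A B H (a H) (b H)).card : ℝ) ∧
        ((realised t ε X A B H (a H) (b H)).card : ℝ) ≤ C0 * C1 * (sing H * (((B : ℝ) - A) / Real.log X ^ k)) := by
      intro H hH
      obtain ⟨p1, p2, p3⟩ := hF.places H hH
      obtain ⟨l1, l2⟩ := h5 H (hF.size H hH) (hF.scale H hH) (hF.adm H hH) (a H) p1 (b H) p2 p3 A B hBX hAB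
      have hbd : ∀ h ∈ H, h ≤ X := by
        intro h hh
        have : (h : ℝ) ≤ X := (hF.scale H hH h hh).trans hlog
        exact_mod_cast this
      obtain ⟨k1, k2⟩ := hcmp X g1 H (hF.size H hH) hbd
      have k3 : W H (2 * X) ≤ W H X := W_anti (hF.adm H hH) (by omega)
      constructor
      · calc c0 * c1 * (sing H * (((B : ℝ) - A) / Real.log X ^ k)) = c0 * (((B : ℝ) - A) * (c1 * (sing H / Real.log X ^ k))) := by ring
          _ ≤ c0 * (((B : ℝ) - A) * W H X) := by
                apply mul_le_mul_of_nonneg_left _ hc0.le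
                apply mul_le_mul_of_nonneg_left _ hlen.le
                exact k1.trans k3
          _ ≤ _ := l1
      · calc ((realised t ε X A B H (a H) (b H)).card : ℝ) ≤ C0 * (((B : ℝ) - A) * W H X) := l2
          _ ≤ C0 * (((B : ℝ) - A) * (C1 * (sing H / Real.log X ^ k))) := by
                apply mul_le_mul_of_nonneg_left _ hC0.le
                apply mul_le_mul_of_nonneg_left _ hlen.le
                exact k2
          _ = C0 * C1 * (sing H * (((B : ℝ) - A) / Real.log X ^ k)) := by ring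
    rw [card_eq hF]
    constructor
    · calc c0 * c1 * ((∑ H ∈ F, sing H) * (((B : ℝ) - A) / Real.log X ^ k)) =
            ∑ H ∈ F, c0 * c1 * (sing H * (((B : ℝ) - A) / Real.log X ^ k)) := by rw [sum_mul, mul_sum]
        _ ≤ _ := sum_le_sum (fun H hH => (key H hH).1)
    · calc ∑ H ∈ F, ((realised t ε X A B H (a H) (b H)).card : ℝ) ≤
            ∑ H ∈ F, C0 * C1 * (sing H * (((B : ℝ) - A) / Real.log X ^ k)) := sum_le_sum (fun H hH => (key H hH).2)
        _ = _ := by rw [sum_mul, mul_sum]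
  · intro L η hη
    obtain ⟨E, X5, h5⟩ := Pool.Agent.Q253.Cov.ap_dense L k (1 / t) (η * c0) (by positivity)
      (by rw [div_le_one ht0]; exact ht1) (by positivity)
    obtain ⟨X3, h3⟩ := hcore 1 one_pos
    refine ⟨E, max X5 X3, ?_⟩
    intro X hX F a b hF hne S hS hSc
    have g5 : X5 ≤ X := (le_max_left _ _).trans hX
    have g3 : X3 ≤ X := (le_max_right _ _).trans hX
    obtain ⟨hX2, hlog, h7⟩ := h3 X g3
    have hpw := pairwise (t := t) (A := 0) (B := X) hF
    have hall := realisedIn_eq (t := t) (ε := ε) (X := X) (A := 0) (B := X) (F := F) (a := a) (b := b)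
    have hSeq : S = F.biUnion (fun H => S ∩ realised t ε X 0 X H (a H) (b H)) := by
      rw [← inter_biUnion, ← hall]
      exact (inter_eq_left.2 hS).symm
    have hcS : (S.card : ℝ) = ∑ H ∈ F, ((S ∩ realised t ε X 0 X H (a H) (b H)).card : ℝ) := by
      conv_lhs => rw [hSeq]
      rw [card_biUnion, Nat.cast_sum]
      intro H hH K hK hne'
      exact (hpw hH hK hne').mono inter_subset_right inter_subset_right
    rw [card_eq hF, hcS, mul_sum] at hSc
    obtain ⟨H, hH, hle⟩ := exists_le_of_sum_le hne hSc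
    obtain ⟨p1, p2, p3⟩ := hF.places H hH
    have h9 := (h7 H (hF.size H hH) (hF.scale H hH) (hF.adm H hH) (a H) p1 (b H) p2 p3 0 X le_rfl (by push_cast; linarith)).1
    rw [Nat.cast_zero, sub_zero] at h9
    obtain ⟨x, r, hr1, hr2, hr3⟩ := h5 X g5 (Zc H) (sysZ (hF.size H hH) (hF.adm H hH)) 0 (S ∩ realised t ε X 0 X H (a H) (b H))
      (by
        intro n hn
        have h10 := (mem_inter.1 hn).2
        unfold realised at h10
        rw [mem_filter, mem_Ioc] at h10
        rw [mem_Ioc]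
        omega)
      (by
        intro n hn p hp hpX hmem
        have h10 := (mem_inter.1 hn).2
        unfold realised at h10
        rw [mem_filter] at h10
        obtain ⟨h, hh, hdiv⟩ := mem_Zc H hp.pos n hmem
        exact absurd hpX (not_le.2 ((h10.2.2.2.1 h hh).2.2 p hp hdiv)))
      (by
        rw [VV_Zc]
        refine le_trans ?_ hle
        calc η * c0 * (X * W H X) = η * (c0 * (X * W H X)) := by ring
          _ ≤ _ := mul_le_mul_of_nonneg_left h9 hη.le)
    exact ⟨H, hH, x, r, hr1, hr2, fun i hi => ⟨(mem_inter.1 (hr3 i hi)).1, (mem_inter.1 (hr3 i hi)).2⟩⟩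

end Pool.Agent.Results.MP_3ec731_nt.EveryPatternExpectedOrder
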