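import Mathlib
import Pool.Agent.Q84.MB.D8

/-!
# Patterns of consecutive primes in every residue class modulo a primorial

For a large real `X` let `Q` be the product of the primes `≤ (log X) / 1000` outside a small exceptional set `S`
(at most `(log X) ^ (49 / 50)` primes, all larger than a given bound), so `Q` is about a power of `X`. Fix ANY
residue class `a` modulo `Q`. Only the integers `n + v` with `a + v` prime to `Q` can be prime when
`n ≡ a (mod Q)`: the survivors. Let `D ≤ (log X) ^ 2` be such that there are at most `c₁ log X` survivors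
`v ≤ D`; this is the case for EVERY class `a` if `D ≤ c₂ log X log log X`. Then

(1) every set `T` of `K = K(m)` survivors `≤ D` contains a set `H` with at least `m` elements such that for at
least `X ^ (4 / 5)` integers `n ≡ a (mod Q)`, `X < n ≤ 3X`, the primes in `[n, n + D]` are exactly the `n + h`,
`h ∈ H`;

(2) a positive proportion, depending only on `m`, of the `m`-element subsets `Y` of every large set `V` of
survivors is hereditary: for EVERY nonempty `Z ⊆ Y` at least `X ^ (4 / 5)` integers `n ≡ a (mod Q)`,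
`X < n ≤ 3X`, realise `Z` as consecutive primes `n + z`, `z ∈ Z`.

So the residues modulo (almost) all primes `≤ (log X) / 1000` can be prescribed arbitrarily, and no structure of the
survivors beyond their number matters. Taking `a` by the Chinese remainder theorem, `V` can be any set of integers
`≤ c₂ log X log log X` which misses a class modulo every prime.

Method: the coloured Maynard-Tao theorem with repelling weights of the starting library (`TH101.RG`, `H312R2`) with
a new form of the Bombieri-Vinogradov theorem relative to a modulus which is a power of `X` (random exceptional set;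
`Pool/Agent/Q84/MB`, based on `H378R2`), Selberg's sieve for the number of the survivors, Ramsey's theorem and double
counting.
-/

set_option autoImplicit false

open scoped Classical

namespace Pool.Agent.Results.MP_3ec731_nt.PatternsModuloPrimorials

open Finset

/-- the product of the primes `≤ (log X) / 1000` outside `S` -/
noncomputable def modulus (X : ℝ) (S : Finset ℕ) : ℕ :=
  ∏ p ∈ (Icc 1 ⌊Real.log X / 1000⌋₊).filter (fun p => p.Prime ∧ p ∉ S), p

/-- the `v ≤ D` such that `a + v` is prime to `Q` -/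
def survivors (Q a D : ℕ) : Finset ℕ := (range (D + 1)).filter fun v => (a + v).Coprime Q

/-- the number of the `n ≡ a` modulo `Q`, `X < n ≤ 3X`, with the property `P` -/
noncomputable def count (X : ℝ) (Q a : ℕ) (P : ℕ → Prop) : ℕ :=
  ((Icc 1 ⌊3 * X⌋₊).filter fun n : ℕ => X < (n : ℝ) ∧ n ≡ a [MOD Q] ∧ P n).card

/-- the primes in `[n, n + D]` are exactly the `n + h`, `h ∈ H` -/
def Exactly (D : ℕ) (H : Finset ℕ) (n : ℕ) : Prop := ∀ v ≤ D, ((n + v).Prime ↔ v ∈ H)

/-- the `n + z`, `z ∈ Z`, are consecutive primes -/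
def Consecutive (Z : Finset ℕ) (n : ℕ) : Prop :=
  (∀ z ∈ Z, (n + z).Prime) ∧
    ∀ y : ℕ, (∃ z ∈ Z, z ≤ y) → (∃ z ∈ Z, y ≤ z) → (n + y).Prime → y ∈ Z

/-- **Patterns of consecutive primes in every class modulo a primorial.** -/
theorem result (m : ℕ) : ∃ (K C : ℕ) (c₁ c₂ : ℝ), 0 < c₁ ∧ 0 < c₂ ∧ ∀ Z : ℕ, ∃ X₀ : ℝ, ∀ X : ℝ, X₀ ≤ X →
    ∃ S : Finset ℕ, (∀ q ∈ S, q.Prime ∧ Z < q) ∧ (S.card : ℝ) ≤ (Real.log X) ^ (49 / 50 : ℝ) ∧
    -- the hypothesis on the number of the survivors holds for short intervals and all classes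
    (∀ a D : ℕ, (D : ℝ) ≤ c₂ * (Real.log X * Real.log (Real.log X)) →
      ((survivors (modulus X S) a D).card : ℝ) ≤ c₁ * Real.log X) ∧
    ∀ a D : ℕ, (D : ℝ) ≤ (Real.log X) ^ 2 → ((survivors (modulus X S) a D).card : ℝ) ≤ c₁ * Real.log X →
      -- (1)
      (∀ T ⊆ survivors (modulus X S) a D, T.card = K → ∃ H ⊆ T, m ≤ H.card ∧
        X ^ (4 / 5 : ℝ) ≤ (count X (modulus X S) a (Exactly D H) : ℝ)) ∧
      -- (2)
      ∀ V ⊆ survivors (modulus X S) a D, C ≤ V.card →
        V.card.choose m ≤ C.choose m * ((powersetCard m V).filter fun Y => ∀ W ⊆ Y, W.Nonempty →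
          X ^ (4 / 5 : ℝ) ≤ (count X (modulus X S) a (Consecutive W) : ℝ)).card := by
  obtain ⟨K, hmK, hK1, c₁, c₂, hc₁, hc₂, hmain⟩ := Pool.Agent.Q84.MB.exact_win m
  obtain ⟨C, hKC, hher⟩ := Pool.Agent.Q84.MB.hered m K hmK
  refine ⟨K, C, c₁, c₂, hc₁, hc₂, fun Z => ?_⟩
  obtain ⟨Z', hZ'⟩ : ∃ Z', Z' = max Z 4 := ⟨_, rfl⟩
  have ev : ∀ᶠ X : ℝ in Filter.atTop, (Z : ℝ) ≤ Real.log (Real.log X) ∧ 2 ≤ Pool.Agent.Q84.MB.vv X ∧
      1 ≤ Real.log X := by
    filter_upwards [(Real.tendsto_log_atTop.comp Real.tendsto_log_atTop).eventually_ge_atTop (Z : ℝ),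
      Pool.Agent.Q84.MB.vv_tendsto.eventually_ge_atTop 2, Real.tendsto_log_atTop.eventually_ge_atTop 1]
      with X h1 h2 h3
    exact ⟨h1, h2, h3⟩
  obtain ⟨X₀, hX₀⟩ := Filter.eventually_atTop.1 ((hmain Z' (by omega)).and ev)
  refine ⟨X₀, fun X hX => ?_⟩
  obtain ⟨⟨ps, S, hps, hS, hSc, hsurv, hwin⟩, hZl, hv2, hL1⟩ := hX₀ X hX
  obtain ⟨S', hS'⟩ : ∃ S', S' = S ∪ ({ps} : Finset ℕ).filter Nat.Prime := ⟨_, rfl⟩
  have hmod : modulus X S' = Pool.Agent.H378R2.WW X S ps := by
    unfold modulus Pool.Agent.H378R2.WW Pool.Agent.H378R2.PW Pool.Agent.H378R2.yy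
    apply prod_congr _ fun _ _ => rfl
    apply filter_congr
    intro p _
    rw [hS', mem_union, mem_filter, mem_singleton]
    tauto
  rw [← hmod] at hsurv hwin
  refine ⟨S', ?_, ?_, hsurv, ?_⟩
  · intro q hq
    rw [hS', mem_union, mem_filter, mem_singleton] at hq
    rcases hq with h | h
    · obtain ⟨h1, h2, -⟩ := hS.1 q h
      refine ⟨h1, ?_⟩
      have h3 := Nat.le_ceil ((Real.log (Real.log X)) ^ 3)
      have h4 : ((⌈(Real.log (Real.log X)) ^ 3⌉₊ : ℕ) : ℝ) < q := by exact_mod_cast h2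
      have h5 : (Z : ℝ) ≤ (Real.log (Real.log X)) ^ 3 := by
        rcases Nat.eq_zero_or_pos Z with h0 | h0
        · rw [h0]
          push_cast
          have : 0 ≤ Real.log (Real.log X) := Real.log_nonneg hL1
          positivity
        · have h6 : (1 : ℝ) ≤ Z := by exact_mod_cast h0
          calc (Z : ℝ) ≤ Real.log (Real.log X) := hZl
            _ ≤ (Real.log (Real.log X)) ^ 3 := le_self_pow₀ (h6.trans hZl) (by norm_num)
      have h6 : (Z : ℝ) < q := by linarith
      exact_mod_cast h6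
    · refine ⟨h.2, ?_⟩
      rcases hps with h1 | h1
      · exfalso
        rw [h.1, h1] at h
        exact Nat.not_prime_one h.2
      · rw [h.1]
        have := h1.2
        omega
  · have h1 : (S'.card : ℝ) ≤ S.card + 1 := by
      have h2 : S'.card ≤ S.card + (({ps} : Finset ℕ).filter Nat.Prime).card := by
        rw [hS']
        exact card_union_le _ _
      have h3 : (({ps} : Finset ℕ).filter Nat.Prime).card ≤ 1 := by
        refine (card_filter_le _ _).trans ?_
        rw [card_singleton]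
      exact_mod_cast h2.trans (Nat.add_le_add_left h3 _)
    obtain ⟨v, hv⟩ : ∃ v, v = Pool.Agent.Q84.MB.vv X := ⟨_, rfl⟩
    rw [← hv] at hv2 hSc
    have h4 : (Real.log X) ^ (49 / 50 : ℝ) = v ^ 196 := by
      have h5 : v ^ 200 = Real.log X := by
        rw [hv]
        exact Pool.Agent.Q84.MB.vv_pow (by linarith)
      rw [← h5, ← Real.rpow_natCast, ← Real.rpow_natCast, ← Real.rpow_mul (by linarith)]
      norm_num
    rw [h4]
    have h5 : (1 : ℝ) ≤ v ^ 195 := one_le_pow₀ (by linarith)
    have h6 : v ^ 196 = v * v ^ 195 := by ring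
    rw [h6]
    nlinarith
  · intro a D hD hV
    have hmemV : ∀ v, v ∈ survivors (modulus X S') a D → v ≤ D := by
      intro v hv
      unfold survivors at hv
      rw [mem_filter, mem_range] at hv
      omega
    have h1 : ∀ T ⊆ survivors (modulus X S') a D, T.card = K → ∃ H ⊆ T, m ≤ H.card ∧
        X ^ (4 / 5 : ℝ) ≤ (count X (modulus X S') a (Exactly D H) : ℝ) := by
      intro T hT hTK
      obtain ⟨H, hHT, hmH, hH⟩ := hwin a D hD hV T hT hTK
      refine ⟨H, hHT, hmH, hH.trans (le_of_eq ?_)⟩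
      unfold Pool.Agent.Q84.MB.RS count Exactly
      congr!
    refine ⟨h1, fun V hVs hCV => ?_⟩
    apply Pool.Agent.Q84.MB.dcount m C (hmK.trans hKC) _ V hCV
    intro W hW hWC
    refine hher (fun W => X ^ (4 / 5 : ℝ) ≤ (count X (modulus X S') a (Consecutive W) : ℝ))
      (survivors (modulus X S') a D) ?_ W (hW.trans hVs) hWC.ge
    intro T hT hTK s hs0 hsm
    obtain ⟨H, hHT, hmH, hH⟩ := h1 T hT hTK
    obtain ⟨Y, hYH, hYs, hYi⟩ := Pool.Agent.Q84.PP.initial H s (hsm.trans hmH)
    refine ⟨Y, hYH.trans hHT, hYs, hH.trans (Nat.cast_le.2 (card_le_card ?_))⟩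
    intro n hn
    rw [mem_filter] at hn ⊢
    obtain ⟨hn1, hn2, hn3, hn4⟩ := hn
    refine ⟨hn1, hn2, hn3, fun z hz => ?_, ?_⟩
    · exact (hn4 z (hmemV z (hT (hHT (hYH hz))))).2 (hYH hz)
    · rintro y - ⟨z, hz, hyz⟩ hp
      have hyD : y ≤ D := hyz.trans (hmemV z (hT (hHT (hYH hz))))
      exact hYi y ((hn4 y hyD).1 hp) z hz hyz

end Pool.Agent.Results.MP_3ec731_nt.PatternsModuloPrimorials
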