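import Pool.Agent.Q84.PP3
import Pool.Agent.Q84.PP4

set_option autoImplicit false

/-!
# The same patterns of consecutive primes in all residue classes at once

A pattern `H` (a finite set of natural numbers containing `0`) is recurrently realised in the class `a` modulo
`q` if for every `η > 0` and arbitrarily large `x` at least `x ^ (1 - η)` integers `n ≤ x`, `n ≡ a (mod q)`,
realise `H` as consecutive primes.

Let `m` and `r` be given. There is `C` depending on `m` and `r` ONLY with the following properties. Let `A_j ≥ 1`,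
`q_j ≥ 1` and `a_j` prime to `q_j` be given, `j < r`; for instance all pairs of a factor `A ≤ t` and a reduced
residue class modulo `q` (`r = t φ(q)`). Let `N` be any multiple of a certain number. Call a finite set `Y` of
integers good if for EVERY nonempty subset `Z` of `Y` and ALL `j` the pattern `A_j N (Z - min Z)` is recurrently
realised in the class `a_j` modulo `q_j`. Then

* every set of `C` natural numbers contains a good set with `m + 1` elements;
* for all `X ≥ C` a proportion of at least `1 / ((m + 1) binom(C, m + 1))` of the sets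
  `{0 < k_1 < … < k_m ≤ X}` is good.

So a positive proportion of all patterns with `m + 1` elements (whose elements are divisible by `N`) is realised
by consecutive primes in all reduced residue classes modulo `q` simultaneously, together with all their
subpatterns and their multiples by `2, …, t`; and this proportion does not depend on the modulus `q`, only
on the number of classes.

Proof: the coloured Maynard-Tao theorem (`Pool.Agent.H732R3.BigQ.quarterB`) gives exact patterns inside every
large set, for each class separately; Ramsey's theorem for the colouring of the finite sets `Z` by a `j` for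
which `Z` is not realised; double counting.
-/

namespace Pool.Agent.Results.MP_3ec731_nt.SimultaneousPatterns

open Finset Filter

/-- at least `x ^ (1 - η)` integers `n ≤ x`, `n ≡ a (mod q)`, realise `H` as consecutive primes, for
arbitrarily large `x`, for every `η > 0` -/
def Realised (q a : ℕ) (H : Finset ℕ) : Prop :=
  ∀ η : ℝ, 0 < η → ∃ᶠ x : ℝ in atTop,
    x ^ (1 - η) ≤ ({n : ℕ | (n : ℝ) ≤ x ∧ n ≡ a [MOD q] ∧
      ∀ t ≤ H.sup id, ((n + t).Prime ↔ t ∈ H)}.ncard : ℝ)

/-- the pattern `c (z - min Z)`, `z ∈ Z` -/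
noncomputable def pat (c : ℕ) (Z : Finset ℕ) : Finset ℕ :=
  Z.image fun z => c * (z - sInf (Z : Set ℕ))

/-- the patterns of all nonempty subsets of `Y`, multiplied by `A j * N`, are realised in the class `a j`
modulo `q j`, for all `j` -/
def Good {r : ℕ} (A q a : Fin r → ℕ) (N : ℕ) (Y : Finset ℕ) : Prop :=
  ∀ Z ⊆ Y, Z.Nonempty → ∀ j, Realised (q j) (a j) (pat (A j * N) Z)

lemma real_of {q a : ℕ} {H : Finset ℕ} (h : Pool.Agent.Q84.PP.RealB q a H) : Realised q a H := by
  intro η hη
  refine (h η hη).mono fun x hx => hx.trans (le_of_eq ?_)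
  congr 2
  ext n
  simp only [Set.mem_ofPred_eq]
  tauto

lemma pat_translate (c t : ℕ) (Z : Finset ℕ) (hZ : Z.Nonempty) :
    pat c (Z.image fun z => z + t) = pat c Z := by
  have h0 : sInf (Z : Set ℕ) ∈ Z := mem_coe.1 (Nat.sInf_mem (coe_nonempty.2 hZ))
  have h1 : sInf ((Z.image fun z => z + t : Finset ℕ) : Set ℕ) = sInf (Z : Set ℕ) + t := by
    apply le_antisymm
    · apply Nat.sInf_le
      rw [mem_coe, mem_image]
      exact ⟨_, h0, rfl⟩
    · have h2 : sInf ((Z.image fun z => z + t : Finset ℕ) : Set ℕ) ∈ (Z.image fun z => z + t) :=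
        mem_coe.1 (Nat.sInf_mem (coe_nonempty.2 (hZ.image _)))
      rw [mem_image] at h2
      obtain ⟨z, hz, hzt⟩ := h2
      rw [← hzt]
      have := Nat.sInf_le (s := (Z : Set ℕ)) (mem_coe.2 hz)
      omega
  unfold pat
  rw [h1, image_image]
  apply image_congr
  intro z hz
  simp only [Function.comp]
  congr 1
  omega

lemma good_translate {r : ℕ} {A q a : Fin r → ℕ} {N : ℕ} (Y Y' : Finset ℕ) (t : ℕ)
    (h : Y = Y'.image (fun y => y + t)) (hY : Good A q a N Y) : Good A q a N Y' := by
  intro Z hZ hne j
  have h1 := hY (Z.image fun z => z + t) (by rw [h]; exact image_subset_image hZ) (hne.image _) j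
  rwa [pat_translate _ _ _ hne] at h1

open Classical in
/-- **The same patterns of consecutive primes in all classes at once.** -/
theorem result (m r : ℕ) : ∃ K C : ℕ, 0 < K ∧ ∀ A q a : Fin r → ℕ, (∀ j, 0 < A j) → (∀ j, 0 < q j) →
    (∀ j, (a j).Coprime (q j)) → ∀ N : ℕ, 0 < N → (∏ j, q j) * K ∣ N →
      (∀ W : Finset ℕ, C ≤ W.card → ∃ Y ⊆ W, Y.card = m + 1 ∧ Good A q a N Y) ∧
      ∀ X : ℕ, C ≤ X → X.choose m ≤ (m + 1) * C.choose (m + 1) *
        ((powersetCard (m + 1) (range (X + 1))).filter fun Y => 0 ∈ Y ∧ Good A q a N Y).card := by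
  obtain ⟨K, C, hmC, h⟩ := Pool.Agent.Q84.PP.hereditary (m + 1) r
  refine ⟨K.factorial, C, Nat.factorial_pos K, fun A q a hA hq ha N hN hd => ?_⟩
  have hc : ∀ j, ∃ c : ℕ, 0 < c ∧ K.factorial ∣ c ∧ q j * c = A j * N := by
    intro j
    obtain ⟨t, rfl⟩ := hd
    obtain ⟨s, hs⟩ : q j ∣ ∏ j, q j := dvd_prod_of_mem q (mem_univ j)
    have ht : 0 < t := Nat.pos_of_ne_zero (by rintro rfl; simp at hN)
    have hs0 : 0 < s := Nat.pos_of_ne_zero (by
      rintro rfl
      rw [mul_zero] at hs
      have := prod_pos (s := (univ : Finset (Fin r))) (fun j _ => hq j)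
      omega)
    refine ⟨A j * (s * K.factorial * t), Nat.mul_pos (hA j)
      (Nat.mul_pos (Nat.mul_pos hs0 (Nat.factorial_pos _)) ht), ?_, ?_⟩
    · exact ((dvd_mul_left _ s).mul_right t).mul_left _
    · rw [hs]
      ring
  choose c hc0 hcK hcq using hc
  have hW : ∀ W : Finset ℕ, C ≤ W.card → ∃ Y ⊆ W, Y.card = m + 1 ∧ Good A q a N Y := by
    intro W hWc
    obtain ⟨Y, hY1, hY2, hY3⟩ := h q a c hq ha hc0 hcK W hWc
    refine ⟨Y, hY1, hY2, fun Z hZ hne j => ?_⟩
    have h1 := real_of (hY3 Z hZ hne j)
    rw [hcq] at h1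
    exact h1
  refine ⟨hW, fun X hX => ?_⟩
  exact Pool.Agent.Q84.PP.counting m C X hmC (by omega) _ hW good_translate

end Pool.Agent.Results.MP_3ec731_nt.SimultaneousPatterns
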